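import Pool.Agent.Helper76.CY.Lin

/-!
# CY-2: an integral Bezout identity
-/

namespace Pool.Agent.Helper2.CY

open Polynomial

theorem exists_clear (U : Polynomial ℚ) : ∃ N : ℕ, 0 < N ∧ ∃ A : Polynomial ℤ,
    A.map (Int.castRingHom ℚ) = C (N : ℚ) * U := by
  induction U using Polynomial.induction_on' with
  | add p q hp hq =>
    obtain ⟨N1, h1, A1, e1⟩ := hp
    obtain ⟨N2, h2, A2, e2⟩ := hq
    refine ⟨N1 * N2, Nat.mul_pos h1 h2, C (N2 : ℤ) * A1 + C (N1 : ℤ) * A2, ?_⟩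
    rw [Polynomial.map_add, Polynomial.map_mul, Polynomial.map_mul, e1, e2, map_C, map_C]
    simp only [Int.coe_castRingHom, Int.cast_natCast, Nat.cast_mul, C_mul]
    ring
  | monomial n q =>
    refine ⟨q.den, q.den_pos, monomial n q.num, ?_⟩
    rw [map_monomial, C_mul_monomial]
    congr 1
    simp [Rat.den_mul_eq_num]

theorem bezout_int (P : Polynomial ℤ) (hP : P ≠ 0) (hdeg : P.natDegree ≤ 10)
    (h1 : P.eval 1 = 0) : ∃ (N : ℕ) (A B : Polynomial ℤ), 0 < N ∧
      A * P + B * (Polynomial.X ^ 11 - 1) = Polynomial.C (N : ℤ) * (Polynomial.X - 1) := by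
  have hroot : (X - C (1 : ℤ)) ∣ P := Polynomial.dvd_iff_isRoot.2 h1
  obtain ⟨P1, hP1⟩ := hroot
  have hP10 : P1 ≠ 0 := by
    rintro rfl
    exact hP (by rw [hP1, mul_zero])
  have hd : P.natDegree = 1 + P1.natDegree := by
    rw [hP1, Polynomial.natDegree_mul (X_sub_C_ne_zero 1) hP10, natDegree_X_sub_C]
  have hd1 : P1.natDegree ≤ 9 := by omega
  have hinj : Function.Injective (Int.castRingHom ℚ) := Int.cast_injective
  have hirr : Irreducible (cyclotomic 11 ℚ) := cyclotomic.irreducible_rat (by norm_num)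
  have hnd : ¬ (cyclotomic 11 ℚ ∣ P1.map (Int.castRingHom ℚ)) := by
    intro h
    have h2 := Polynomial.natDegree_le_of_dvd h
      ((Polynomial.map_ne_zero_iff hinj).2 hP10)
    rw [natDegree_cyclotomic, Nat.totient_prime (by norm_num : Nat.Prime 11),
      natDegree_map_eq_of_injective hinj] at h2
    omega
  have hco : IsCoprime (cyclotomic 11 ℚ) (P1.map (Int.castRingHom ℚ)) :=
    (hirr.coprime_iff_not_dvd).2 hnd
  obtain ⟨U, V, hUV⟩ := hco
  obtain ⟨N1, hN1, A1, e1⟩ := exists_clear U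
  obtain ⟨N2, hN2, A2, e2⟩ := exists_clear V
  have key : C (N2 : ℤ) * A1 * cyclotomic 11 ℤ + C (N1 : ℤ) * A2 * P1 =
      C ((N1 * N2 : ℕ) : ℤ) := by
    apply Polynomial.map_injective _ hinj
    rw [Polynomial.map_add, Polynomial.map_mul, Polynomial.map_mul, Polynomial.map_mul,
      Polynomial.map_mul, e1, e2, map_cyclotomic, map_C, map_C, map_C]
    simp only [Int.coe_castRingHom, Int.cast_natCast, Nat.cast_mul]
    calc C (N2 : ℚ) * (C (N1 : ℚ) * U) * cyclotomic 11 ℚ +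
          C (N1 : ℚ) * (C (N2 : ℚ) * V) * P1.map (Int.castRingHom ℚ)
        = C (N1 : ℚ) * C (N2 : ℚ) *
            (U * cyclotomic 11 ℚ + V * P1.map (Int.castRingHom ℚ)) := by ring
      _ = _ := by rw [hUV]; simp
  have hcyc : cyclotomic 11 ℤ * (X - 1) = X ^ 11 - 1 := by
    have : Fact (Nat.Prime 11) := ⟨by norm_num⟩
    exact cyclotomic_prime_mul_X_sub_one ℤ 11
  refine ⟨N1 * N2, C (N1 : ℤ) * A2, C (N2 : ℤ) * A1, Nat.mul_pos hN1 hN2, ?_⟩
  rw [← key, ← hcyc, hP1, C_1]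
  ring

end Pool.Agent.Helper2.CY
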